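import Mathlib

/-!
Compact action realizations of countable Borel equivalence relations: basic definitions and the
topological obstruction on perfect spaces.
-/

open Set Filter Topology

namespace Pool.Agent.X219.CR

/-- A countable Borel equivalence relation on a measurable space. -/
structure CBER {X : Type} [MeasurableSpace X] (E : X → X → Prop) : Prop where
  equiv : Equivalence E
  meas : MeasurableSet {p : X × X | E p.1 p.2}
  ctbl : ∀ x, {y | E x y}.Countable

/-- `E` is realized by a continuous action of a countable group on the space `K`: there are a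
countable group `G`, an action of `G` on `K` by continuous maps and a Borel isomorphism
`X ≃ K` carrying `E` to the orbit equivalence relation. -/
def RealizedOn {X : Type} [MeasurableSpace X] (E : X → X → Prop) (K : Type)
    [TopologicalSpace K] : Prop :=
  ∃ (G : Type) (_ : Group G) (_ : Countable G) (_ : MulAction G K)
    (f : X ≃ K), (∀ g : G, Continuous fun y : K => g • y) ∧
      @Measurable X K _ (borel K) f ∧ @Measurable K X (borel K) _ f.symm ∧
      ∀ x y, E x y ↔ ∃ g : G, f y = g • f x

/-- `E` admits a compact action realization. -/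
def CompactRealizable {X : Type} [MeasurableSpace X] (E : X → X → Prop) : Prop :=
  ∃ (K : Type) (_ : TopologicalSpace K) (_ : CompactSpace K) (_ : TopologicalSpace.MetrizableSpace K),
    RealizedOn E K

section obstruction

variable {K : Type} [TopologicalSpace K] {G : Type} [Group G] [MulAction G K]

/-- The set of points with more than `n` points in the orbit is open. -/
theorem isOpen_big [T2Space K] (hc : ∀ g : G, Continuous fun y : K => g • y) (n : ℕ) :
    IsOpen {y : K | (n : ℕ∞) < {z | ∃ g : G, z = g • y}.encard} := by
  have key : {y : K | (n : ℕ∞) < {z | ∃ g : G, z = g • y}.encard} =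
      ⋃ s : {s : Finset G // s.card = n + 1}, {y | Set.InjOn (fun g : G => g • y) s.1} := by
    ext y
    simp only [mem_ofPred_eq, mem_iUnion]
    constructor
    · intro h
      have h1 : ((n + 1 : ℕ) : ℕ∞) ≤ {z | ∃ g : G, z = g • y}.encard := by
        push_cast
        exact Order.add_one_le_of_lt h
      obtain ⟨t, ht, htc⟩ := Set.exists_subset_encard_eq h1
      have hfin : t.Finite := Set.finite_of_encard_eq_coe htc
      choose! c hc' using (fun z (hz : z ∈ t) => ht hz)
      classical
      refine ⟨⟨hfin.toFinset.image c, ?_⟩, ?_⟩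
      · rw [Finset.card_image_of_injOn]
        · rw [← Set.ncard_eq_toFinset_card t hfin]
          unfold Set.ncard
          rw [htc]
          rfl
        · intro a ha b hb hab
          rw [hfin.coe_toFinset] at ha hb
          rw [hc' a ha, hc' b hb]
          rw [hab]
      · intro a ha b hb hab
        simp only [Finset.coe_image, hfin.coe_toFinset, mem_image] at ha hb
        obtain ⟨a', ha', rfl⟩ := ha
        obtain ⟨b', hb', rfl⟩ := hb
        simp only at hab
        rw [← hc' a' ha', ← hc' b' hb'] at hab
        rw [hab]
    · rintro ⟨⟨s, hs⟩, hinj⟩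
      have h1 : ((fun g : G => g • y) '' (s : Set G)).encard = ((n + 1 : ℕ) : ℕ∞) := by
        rw [hinj.encard_image, Set.encard_coe_eq_coe_finsetCard, hs]
      have h2 : (fun g : G => g • y) '' (s : Set G) ⊆ {z | ∃ g : G, z = g • y} := by
        rintro _ ⟨g, -, rfl⟩
        exact ⟨g, rfl⟩
      have h3 := Set.encard_le_encard h2
      rw [h1] at h3
      refine lt_of_lt_of_le ?_ h3
      exact_mod_cast Nat.lt_succ_self n
  rw [key]
  refine isOpen_iUnion fun s => ?_
  have h4 : {y : K | Set.InjOn (fun g : G => g • y) s.1} =
      ⋂ p ∈ (s.1 ×ˢ s.1 : Finset (G × G)), {y | p.1 ≠ p.2 → p.1 • y ≠ p.2 • y} := by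
    ext y
    simp only [mem_ofPred_eq, mem_iInter, Finset.mem_product]
    constructor
    · rintro h p ⟨h1, h2⟩ hne heq
      exact hne (h h1 h2 heq)
    · intro h a ha b hb hab
      by_contra hne
      exact h (a, b) ⟨ha, hb⟩ hne hab
  rw [h4]
  refine isOpen_biInter_finset fun p _ => ?_
  by_cases hp : p.1 = p.2
  · have : {y : K | p.1 ≠ p.2 → p.1 • y ≠ p.2 • y} = univ := by
      ext y; simp [hp]
    rw [this]
    exact isOpen_univ
  · have : {y : K | p.1 ≠ p.2 → p.1 • y ≠ p.2 • y} = {y | p.1 • y ≠ p.2 • y} := by
      ext y; simp [hp]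
    rw [this]
    exact isOpen_ne_fun (hc _) (hc _)

/-- A nonempty open subset of a perfect Baire `T1` space is uncountable. -/
theorem open_uncountable {K : Type} [TopologicalSpace K] [T1Space K] [BaireSpace K]
    [PerfectSpace K] {U : Set K} (hU : IsOpen U) (hc : U.Countable) : U = ∅ := by
  by_contra hne
  have hd : Dense (⋂ x ∈ U, ({x}ᶜ : Set K)) := by
    refine dense_biInter_of_isOpen (fun x _ => isOpen_compl_singleton) hc (fun x _ => ?_)
    have : Filter.NeBot (𝓝[≠] x) := perfectSpace_iff_forall_not_isolated.1 inferInstance x
    exact dense_compl_singleton x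
  obtain ⟨y, hy, hy2⟩ := hd.inter_open_nonempty U hU (Set.nonempty_iff_ne_empty.2 hne)
  simp only [mem_iInter, mem_compl_iff, mem_singleton_iff] at hy2
  exact hy2 y hy rfl

end obstruction

/-- The obstruction: if `E` is realized on a perfect Hausdorff Baire space, then for every `n` the
set of points whose class has more than `n` elements is empty or uncountable. -/
theorem obstruction {X : Type} [MeasurableSpace X] {E : X → X → Prop} {K : Type}
    [TopologicalSpace K] [T2Space K] [BaireSpace K] [PerfectSpace K]
    (h : RealizedOn E K) (n : ℕ) :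
    {x | (n : ℕ∞) < {y | E x y}.encard} = ∅ ∨
      ¬ {x | (n : ℕ∞) < {y | E x y}.encard}.Countable := by
  obtain ⟨G, _, _, _, f, hc, -, -, hE⟩ := h
  by_cases hcount : {x | (n : ℕ∞) < {y | E x y}.encard}.Countable
  swap
  · exact Or.inr hcount
  left
  have himg : f '' {x | (n : ℕ∞) < {y | E x y}.encard} =
      {y : K | (n : ℕ∞) < {z | ∃ g : G, z = g • y}.encard} := by
    ext y
    have hcl : ∀ x, {z | ∃ g : G, z = g • f x} = f '' {y | E x y} := by
      intro x
      ext z
      simp only [mem_ofPred_eq, mem_image]
      constructor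
      · rintro ⟨g, hg⟩
        refine ⟨f.symm z, ?_, by simp⟩
        rw [hE]
        exact ⟨g, by simpa using hg⟩
      · rintro ⟨w, hw, rfl⟩
        exact (hE x w).1 hw
    constructor
    · rintro ⟨x, hx, rfl⟩
      simp only [mem_ofPred_eq] at hx ⊢
      rw [hcl x, f.injective.encard_image]
      exact hx
    · intro hy
      refine ⟨f.symm y, ?_, by simp⟩
      simp only [mem_ofPred_eq] at hy ⊢
      rw [← f.injective.encard_image, ← hcl]
      simpa using hy
  have h2 := open_uncountable (isOpen_big hc n) (himg ▸ hcount.image f)
  rw [← himg] at h2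
  exact Set.image_eq_empty.1 h2

end Pool.Agent.X219.CR
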