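import Pool.Agent.X219.CR.Ex

/-!
The examples all of whose classes have at least `n` elements.
-/

open Set Filter Topology

namespace Pool.Agent.X219.CR

/-- The underlying space `(ℕ ∪ {∞} ⊔ 2^ℕ) × {0, …, n-1}`. -/
abbrev Sp (n : ℕ) : Type := (OnePoint ℕ ⊕ (ℕ → Bool)) × Fin n

/-- The relation: two points are equivalent iff they have the same first coordinate, or both first
coordinates are isolated points. -/
def Rn (n : ℕ) (x y : Sp n) : Prop :=
  x.1 = y.1 ∨ ∃ a b : ℕ, x.1 = Sum.inl (OnePoint.some a) ∧ y.1 = Sum.inl (OnePoint.some b)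

theorem Rn_equiv (n : ℕ) : Equivalence (Rn n) := by
  refine ⟨fun x => Or.inl rfl, ?_, ?_⟩
  · rintro x y (h | ⟨a, b, h1, h2⟩)
    · exact Or.inl h.symm
    · exact Or.inr ⟨b, a, h2, h1⟩
  · rintro x y z (h | ⟨a, b, h1, h2⟩) (h' | ⟨a', b', h1', h2'⟩)
    · exact Or.inl (h.trans h')
    · exact Or.inr ⟨a', b', h.trans h1', h2'⟩
    · exact Or.inr ⟨a, b, h1, h'.symm.trans h2⟩
    · exact Or.inr ⟨a, b', h1, h2'⟩

/-- The generators. -/
noncomputable def gens (n : ℕ) : ((ℕ × Fin n) × (ℕ × Fin n)) ⊕ Equiv.Perm (Fin n) → Equiv.Perm (Sp n) :=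
  open Classical in
  Sum.elim
    (fun q => Equiv.swap (Sum.inl (OnePoint.some q.1.1), q.1.2) (Sum.inl (OnePoint.some q.2.1), q.2.2))
    (fun σ => Equiv.prodCongr (Equiv.refl _) σ)

theorem isOpen_iso (n : ℕ) (a : ℕ) (i : Fin n) :
    IsOpen ({((Sum.inl (OnePoint.some a), i) : Sp n)} : Set (Sp n)) := by
  have h1 : IsOpen ({OnePoint.some a} : Set (OnePoint ℕ)) := by
    have := (OnePoint.isOpen_image_coe (X := ℕ) (s := {a})).2 (isOpen_discrete _)
    simpa using this
  have h2 : IsOpen ({Sum.inl (OnePoint.some a)} : Set (OnePoint ℕ ⊕ (ℕ → Bool))) := by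
    have := (Topology.IsOpenEmbedding.inl (Y := (ℕ → Bool))).isOpenMap _ h1
    simpa using this
  have h3 := h2.prod (isOpen_discrete ({i} : Set (Fin n)))
  simpa using h3

theorem gens_cont (n : ℕ) (i) : Continuous (gens n i) ∧ Continuous (gens n i).symm := by
  classical
  rcases i with q | σ
  · simp only [gens, Sum.elim_inl, Equiv.symm_swap, and_self]
    convert swap_continuous (isOpen_iso n q.1.1 q.1.2) (isOpen_iso n q.2.1 q.2.2)
  · constructor
    · show Continuous (fun x : Sp n => (x.1, σ x.2))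
      exact continuous_fst.prodMk (continuous_of_discreteTopology.comp continuous_snd)
    · show Continuous (fun x : Sp n => (x.1, σ.symm x.2))
      exact continuous_fst.prodMk (continuous_of_discreteTopology.comp continuous_snd)

theorem gens_Rn (n : ℕ) (i) (x : Sp n) : Rn n x (gens n i x) := by
  classical
  rcases i with ⟨⟨a, i⟩, ⟨b, j⟩⟩ | σ
  · simp only [gens, Sum.elim_inl]
    by_cases hxa : x = (Sum.inl (OnePoint.some a), i)
    · subst hxa
      rw [Equiv.swap_apply_left]
      exact Or.inr ⟨a, b, rfl, rfl⟩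
    by_cases hxb : x = (Sum.inl (OnePoint.some b), j)
    · subst hxb
      rw [Equiv.swap_apply_right]
      exact Or.inr ⟨b, a, rfl, rfl⟩
    · rw [Equiv.swap_apply_of_ne_of_ne hxa hxb]
      exact Or.inl rfl
  · exact Or.inl rfl

theorem realizedOn_self (n : ℕ) :
    @RealizedOn (Sp n) (borel (Sp n)) (Rn n) (Sp n) _ := by
  classical
  let _ : MeasurableSpace (Sp n) := borel _
  refine realizedOn_of_gen (gens n) (fun i => (gens_cont n i).1) (fun i => (gens_cont n i).2)
    (Rn_equiv n) (gens_Rn n) ?_ (Equiv.refl _) measurable_id measurable_id (fun x y => Iff.rfl)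
  rintro ⟨x, i⟩ ⟨y, j⟩ (h | ⟨a, b, h1, h2⟩)
  · simp only at h
    subst h
    refine ⟨FreeGroup.of (Sum.inr (Equiv.swap i j)), ?_⟩
    simp [gens]
  · simp only at h1 h2
    subst h1
    subst h2
    refine ⟨FreeGroup.of (Sum.inl ((a, i), (b, j))), ?_⟩
    simp only [FreeGroup.lift_apply_of, gens, Sum.elim_inl]
    rw [Equiv.swap_apply_left]

theorem polish_Sp (n : ℕ) : PolishSpace (Sp n) := by
  let _ := TopologicalSpace.metrizableSpaceMetric (Sp n)
  infer_instance

theorem Rn_closed_meas (n : ℕ) :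
    @MeasurableSet (Sp n × Sp n) (@Prod.instMeasurableSpace _ _ (borel _) (borel _))
      {p | Rn n p.1 p.2} := by
  let _ : MeasurableSpace (Sp n) := borel _
  have : BorelSpace (Sp n) := ⟨rfl⟩
  have h1 : MeasurableSet {p : Sp n × Sp n | p.1.1 = p.2.1} :=
    (isClosed_eq (continuous_fst.comp continuous_fst) (continuous_fst.comp continuous_snd)).measurableSet
  have h2 : MeasurableSet {x : Sp n | ∃ a : ℕ, x.1 = Sum.inl (OnePoint.some a)} := by
    have : {x : Sp n | ∃ a : ℕ, x.1 = Sum.inl (OnePoint.some a)} =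
        ⋃ a : ℕ, ⋃ i : Fin n, {((Sum.inl (OnePoint.some a), i) : Sp n)} := by
      ext ⟨x, i⟩
      simp [Prod.ext_iff, eq_comm]
    rw [this]
    exact MeasurableSet.iUnion fun a => MeasurableSet.iUnion fun i => (isOpen_iso n a i).measurableSet
  have h3 : {p : Sp n × Sp n | Rn n p.1 p.2} = {p : Sp n × Sp n | p.1.1 = p.2.1} ∪
      ({x : Sp n | ∃ a : ℕ, x.1 = Sum.inl (OnePoint.some a)} ×ˢ
        {x : Sp n | ∃ a : ℕ, x.1 = Sum.inl (OnePoint.some a)}) := by
    ext ⟨x, y⟩
    simp only [Rn, mem_ofPred_eq, mem_union, mem_prod]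
    constructor
    · rintro (h | ⟨a, b, h1, h2⟩)
      · exact Or.inl h
      · exact Or.inr ⟨⟨a, h1⟩, ⟨b, h2⟩⟩
    · rintro (h | ⟨⟨a, h1⟩, ⟨b, h2⟩⟩)
      · exact Or.inl h
      · exact Or.inr ⟨a, b, h1, h2⟩
  rw [h3]
  exact h1.union (h2.prod h2)

/-- For every `n ≥ 1` there is a countable Borel equivalence relation on an uncountable standard
Borel space all of whose classes have at least `n` elements, which has a compact action
realization, and whose set of points with class of more than `n` elements is nonempty and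
countable. -/
theorem big_example (n : ℕ) (hn : 1 ≤ n) :
    ∃ (X : Type) (_ : MeasurableSpace X) (_ : StandardBorelSpace X) (E : X → X → Prop),
      ¬ Countable X ∧ CBER E ∧ (∀ x, (n : ℕ∞) ≤ {y | E x y}.encard) ∧ CompactRealizable E ∧
        {x | (n : ℕ∞) < {y | E x y}.encard}.Nonempty ∧
        {x | (n : ℕ∞) < {y | E x y}.encard}.Countable := by
  let _ : MeasurableSpace (Sp n) := borel _
  have : BorelSpace (Sp n) := ⟨rfl⟩
  have := polish_Sp n
  let i0 : Fin n := ⟨0, hn⟩
  have hfib : ∀ x : OnePoint ℕ ⊕ (ℕ → Bool),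
      {y : Sp n | y.1 = x}.encard = (n : ℕ∞) := by
    intro x
    have h1 : {y : Sp n | y.1 = x} = (fun i : Fin n => ((x, i) : Sp n)) '' univ := by
      ext ⟨y, i⟩
      simp [Prod.ext_iff, eq_comm]
    rw [h1, Function.Injective.encard_image (fun i j h => (Prod.ext_iff.1 h).2), Set.encard_univ]
    simp
  have hcN : {x : Sp n | ∃ a : ℕ, x.1 = Sum.inl (OnePoint.some a)}.Countable := by
    have : {x : Sp n | ∃ a : ℕ, x.1 = Sum.inl (OnePoint.some a)} =
        ⋃ a : ℕ, ⋃ i : Fin n, {((Sum.inl (OnePoint.some a), i) : Sp n)} := by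
      ext ⟨x, i⟩
      simp [Prod.ext_iff, eq_comm]
    rw [this]
    exact countable_iUnion fun a => countable_iUnion fun i => countable_singleton _
  have hfin : ∀ x : OnePoint ℕ ⊕ (ℕ → Bool), {y : Sp n | y.1 = x}.Finite := fun x =>
    Set.finite_of_encard_eq_coe (hfib x)
  refine ⟨Sp n, inferInstance, inferInstance, Rn n, ?_, ⟨Rn_equiv n, Rn_closed_meas n, ?_⟩, ?_, ?_,
    ?_, ?_⟩
  · intro hc
    apply not_countable_cantor
    exact Function.Injective.countable (f := fun z : ℕ → Bool => ((Sum.inr z, i0) : Sp n))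
      (fun a b h => Sum.inr_injective (Prod.ext_iff.1 h).1)
  · intro x
    have : {y | Rn n x y} ⊆ {y : Sp n | y.1 = x.1} ∪
        {x : Sp n | ∃ a : ℕ, x.1 = Sum.inl (OnePoint.some a)} := by
      rintro y (h | ⟨a, b, h1, h2⟩)
      · exact Or.inl h.symm
      · exact Or.inr ⟨b, h2⟩
    exact ((hfin x.1).countable.union hcN).mono this
  · intro x
    rw [← hfib x.1]
    exact Set.encard_le_encard fun y hy => Or.inl (Eq.symm hy)
  · exact ⟨Sp n, inferInstance, inferInstance, inferInstance, realizedOn_self n⟩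
  · refine ⟨(Sum.inl (OnePoint.some 0), i0), ?_⟩
    have h1 : {y : Sp n | y.1 = Sum.inl (OnePoint.some 0)} ⊂
        {y | Rn n (Sum.inl (OnePoint.some 0), i0) y} := by
      refine ⟨fun y hy => Or.inl (Eq.symm hy), fun hcon => ?_⟩
      have h2 : ((Sum.inl (OnePoint.some 1), i0) : Sp n) ∈
          {y | Rn n (Sum.inl (OnePoint.some 0), i0) y} := Or.inr ⟨0, 1, rfl, rfl⟩
      have h3 := hcon h2
      simp only [mem_ofPred_eq, Sum.inl.injEq] at h3
      have := OnePoint.coe_injective h3
      omega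
    have h4 := (hfin (Sum.inl (OnePoint.some 0))).encard_lt_encard h1
    rw [hfib] at h4
    exact h4
  · refine hcN.mono fun x hx => ?_
    by_contra hne
    have : {y | Rn n x y} ⊆ {y : Sp n | y.1 = x.1} := by
      rintro y (h | ⟨a, b, h1, h2⟩)
      · exact h.symm
      · exact absurd ⟨a, h1⟩ hne
    have h2 := Set.encard_le_encard this
    rw [hfib] at h2
    exact absurd hx (not_lt.2 h2)

end Pool.Agent.X219.CR
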