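import Pool.Agent.X219.CR.Base

/-!
Compact realizations of relations with a countable exceptional part.
-/

open Set Filter Topology

namespace Pool.Agent.X219.CR

/-- Swapping two isolated points is continuous. -/
theorem swap_continuous {K : Type} [TopologicalSpace K] [T1Space K] [DecidableEq K] {a b : K}
    (ha : IsOpen ({a} : Set K)) (hb : IsOpen ({b} : Set K)) :
    Continuous (Equiv.swap a b : K → K) := by
  rw [continuous_iff_continuousAt]
  intro x
  by_cases hxa : x = a
  · subst hxa
    have : 𝓝 x = pure x := (isOpen_singleton_iff_nhds_eq_pure x).1 ha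
    unfold ContinuousAt
    rw [this]
    exact tendsto_pure_left.2 fun s hs => mem_of_mem_nhds hs
  by_cases hxb : x = b
  · subst hxb
    have : 𝓝 x = pure x := (isOpen_singleton_iff_nhds_eq_pure x).1 hb
    unfold ContinuousAt
    rw [this]
    exact tendsto_pure_left.2 fun s hs => mem_of_mem_nhds hs
  · have hev : (Equiv.swap a b : K → K) =ᶠ[𝓝 x] id := by
      have hopen : IsOpen ({a, b}ᶜ : Set K) := (Set.toFinite {a, b}).isClosed.isOpen_compl
      filter_upwards [hopen.mem_nhds (by simp [hxa, hxb])] with y hy
      simp only [mem_compl_iff, mem_insert_iff, mem_singleton_iff, not_or] at hy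
      exact Equiv.swap_apply_of_ne_of_ne hy.1 hy.2
    exact (continuousAt_id).congr hev.symm

/-- The free-group action generated by a family of permutations. -/
@[implicit_reducible]
def genAct {K I : Type} (s : I → Equiv.Perm K) : MulAction (FreeGroup I) K :=
  MulAction.compHom K (FreeGroup.lift s)

theorem genAct_smul {K I : Type} (s : I → Equiv.Perm K) (g : FreeGroup I) (x : K) :
    (genAct s).toSMul.smul g x = (FreeGroup.lift s g) x := rfl

theorem genAct_continuous {K I : Type} [TopologicalSpace K] (s : I → Equiv.Perm K)
    (h1 : ∀ i, Continuous (s i)) (h2 : ∀ i, Continuous (s i).symm) (g : FreeGroup I) :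
    Continuous (fun x => (FreeGroup.lift s g) x) := by
  induction g using FreeGroup.induction_on with
  | C1 => simpa using continuous_id'
  | of i => simpa using h1 i
  | inv_of i _ => simpa using h2 i
  | mul x y hx hy =>
    have : (fun z => (FreeGroup.lift s (x * y)) z) =
        (fun z => (FreeGroup.lift s x) z) ∘ (fun z => (FreeGroup.lift s y) z) := by
      funext z; simp
    rw [this]
    exact hx.comp hy

theorem genAct_sub {K I : Type} (s : I → Equiv.Perm K) {F : K → K → Prop} (hF : Equivalence F)
    (h : ∀ i x, F x (s i x)) (g : FreeGroup I) (x : K) : F x ((FreeGroup.lift s g) x) := by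
  induction g using FreeGroup.induction_on generalizing x with
  | C1 => simpa using hF.refl x
  | of i => simpa using h i x
  | inv_of i _ =>
    have := h i ((s i).symm x)
    simp only [Equiv.apply_symm_apply] at this
    simpa using hF.symm this
  | mul a b ha hb =>
    have : (FreeGroup.lift s (a * b)) x = (FreeGroup.lift s a) ((FreeGroup.lift s b) x) := by simp
    rw [this]
    exact hF.trans (hb x) (ha _)

/-- General realization lemma: a relation `F` on a space `K` generated by a countable family of
homeomorphisms, transported by a Borel isomorphism. -/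
theorem realizedOn_of_gen {X : Type} [MeasurableSpace X] {E : X → X → Prop} {K I : Type}
    [TopologicalSpace K] [Countable I] (s : I → Equiv.Perm K)
    (h1 : ∀ i, Continuous (s i)) (h2 : ∀ i, Continuous (s i).symm)
    {F : K → K → Prop} (hF : Equivalence F) (h : ∀ i x, F x (s i x))
    (h' : ∀ x y, F x y → ∃ g : FreeGroup I, y = (FreeGroup.lift s g) x)
    (f : X ≃ K) (hf : @Measurable X K _ (borel K) f) (hf' : @Measurable K X (borel K) _ f.symm)
    (hE : ∀ x y, E x y ↔ F (f x) (f y)) : RealizedOn E K := by
  refine ⟨FreeGroup I, inferInstance, inferInstance, genAct s, f, ?_, hf, hf', ?_⟩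
  · exact genAct_continuous s h1 h2
  · intro x y
    rw [hE]
    constructor
    · intro hxy
      exact h' _ _ hxy
    · rintro ⟨g, hg⟩
      rw [hg]
      exact genAct_sub s hF h g (f x)

/-- The one-point compactification of a countable discrete space is metrizable. -/
theorem metrizable_onePoint (N : Type) [Countable N] [TopologicalSpace N] [DiscreteTopology N] :
    TopologicalSpace.MetrizableSpace (OnePoint N) := by
  obtain ⟨e, he⟩ := exists_injective_nat N
  have hc : Continuous (OnePoint.map e : OnePoint N → OnePoint ℕ) := by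
    refine OnePoint.continuous_map continuous_of_discreteTopology ?_
    simp only [coclosedCompact_eq_cocompact, cocompact_eq_cofinite]
    exact he.tendsto_cofinite
  have hi : Function.Injective (OnePoint.map e : OnePoint N → OnePoint ℕ) := by
    exact Option.map_injective he
  exact (hc.isClosedEmbedding hi).metrizableSpace

theorem not_countable_cantor : ¬ Countable (ℕ → Bool) := by
  intro h
  obtain ⟨f, hf⟩ := exists_surjective_nat (ℕ → Bool)
  obtain ⟨n, hn⟩ := hf (fun n => !(f n n))
  have := congrFun hn n
  simp at this

/-- An uncountable standard Borel space with a relation whose nontrivial classes have a countable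
union has a compact action realization. -/
theorem compactRealizable_of_countable_part {X : Type} [MeasurableSpace X] [StandardBorelSpace X]
    (hX : ¬ Countable X) {E : X → X → Prop} (hE : Equivalence E)
    (hN : {x | ∃ y, E x y ∧ y ≠ x}.Countable) : CompactRealizable E := by
  classical
  set N : Set X := {x | ∃ y, E x y ∧ y ≠ x} with hNdef
  have : Countable N := hN
  let _ : TopologicalSpace N := ⊥
  have : DiscreteTopology N := ⟨rfl⟩
  have hNm : MeasurableSet N := hN.measurableSet
  have := metrizable_onePoint N
  obtain ⟨p, hp⟩ : ∃ p, p ∉ N := by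
    by_contra hcon
    push Not at hcon
    exact hX (countable_univ_iff.1 (hN.mono fun x _ => hcon x))
  -- the complement of `N ∪ {p}`
  have hQm : MeasurableSet (N ∪ {p} : Set X) := hNm.union (measurableSet_singleton p)
  have hunc : ¬ Countable ((N ∪ {p})ᶜ : Set X) := by
    intro hc
    apply hX
    have : (univ : Set X).Countable := by
      rw [← union_compl_self (N ∪ {p})]
      exact (hN.union (countable_singleton p)).union hc
    exact countable_univ_iff.1 this
  have : StandardBorelSpace ((N ∪ {p})ᶜ : Set X) := hQm.compl.standardBorel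
  let _ : MeasurableSpace (OnePoint N) := borel _
  have : BorelSpace (OnePoint N) := ⟨rfl⟩
  let _ : MeasurableSpace (OnePoint N ⊕ (ℕ → Bool)) := borel _
  have : BorelSpace (OnePoint N ⊕ (ℕ → Bool)) := ⟨rfl⟩
  let g : ((N ∪ {p})ᶜ : Set X) ≃ᵐ (ℕ → Bool) :=
    PolishSpace.measurableEquivOfNotCountable hunc not_countable_cantor
  refine ⟨OnePoint N ⊕ (ℕ → Bool), inferInstance, inferInstance, inferInstance, ?_⟩
  -- the bijection
  let f0 : X → OnePoint N ⊕ (ℕ → Bool) := fun x =>
    if h : x ∈ N then Sum.inl (OnePoint.some ⟨x, h⟩) else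
      if h' : x = p then Sum.inl OnePoint.infty else
        Sum.inr (g ⟨x, by simp [h, h']⟩)
  let f1 : OnePoint N ⊕ (ℕ → Bool) → X := Sum.elim
    (fun o => OnePoint.elim o p (fun n : N => (n : X)))
    (fun z => (g.symm z).1)
  have hl : Function.LeftInverse f1 f0 := by
    intro x
    by_cases h : x ∈ N
    · simp only [f0, dif_pos h, f1, Sum.elim_inl, OnePoint.elim_some]
    · by_cases h' : x = p
      · simp only [f0, dif_neg h, dif_pos h', f1, Sum.elim_inl, OnePoint.elim_infty]
        exact h'.symm
      · simp only [f0, dif_neg h, dif_neg h', f1, Sum.elim_inr, MeasurableEquiv.symm_apply_apply]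
  have hr : Function.RightInverse f1 f0 := by
    rintro (o | z)
    · induction o using OnePoint.rec with
      | infty =>
        show f0 p = _
        simp only [f0, dif_neg hp, dite_true]
      | coe n =>
        show f0 (n : X) = _
        simp only [f0, dif_pos n.2]
    · show f0 ((g.symm z).1 : X) = _
      have h : ((g.symm z).1 : X) ∉ N ∪ {p} := (g.symm z).2
      simp only [mem_union, mem_singleton_iff, not_or] at h
      simp only [f0, dif_neg h.1, dif_neg h.2]
      simp
  let f : X ≃ OnePoint N ⊕ (ℕ → Bool) := ⟨f0, f1, hl, hr⟩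
  have hcO : Countable (OnePoint N) := inferInstanceAs (Countable (Option N))
  have hinl : MeasurableEmbedding (Sum.inl : OnePoint N → OnePoint N ⊕ (ℕ → Bool)) :=
    Topology.IsOpenEmbedding.inl.measurableEmbedding
  have hinr : MeasurableEmbedding (Sum.inr : (ℕ → Bool) → OnePoint N ⊕ (ℕ → Bool)) :=
    Topology.IsOpenEmbedding.inr.measurableEmbedding
  have hf1m : Measurable f1 := by
    intro A hA
    have hsplit : f1 ⁻¹' A = Sum.inl '' ((f1 ∘ Sum.inl) ⁻¹' A) ∪ Sum.inr '' ((f1 ∘ Sum.inr) ⁻¹' A) := by
      ext (o | z) <;> simp
    rw [hsplit]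
    refine MeasurableSet.union ?_ ?_
    · exact hinl.measurableSet_image.2 ((Set.to_countable _).measurableSet)
    · refine hinr.measurableSet_image.2 ?_
      have hm : Measurable (f1 ∘ Sum.inr) := by
        show Measurable fun z => ((g.symm z).1 : X)
        exact measurable_subtype_coe.comp g.symm.measurable
      exact hm hA
  have hfm : Measurable f0 := by
    intro A hA
    have hsplit : f0 ⁻¹' A = ((f0 ⁻¹' A) ∩ (N ∪ {p})) ∪
        (Subtype.val '' (g ⁻¹' (Sum.inr ⁻¹' A)) : Set X) := by
      ext x
      simp only [mem_preimage, mem_union, mem_inter_iff, mem_image, Subtype.exists]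
      constructor
      · intro hx
        by_cases h : x ∈ N ∪ {p}
        · exact Or.inl ⟨hx, h⟩
        · right
          refine ⟨x, h, ?_, rfl⟩
          simp only [mem_union, mem_singleton_iff, not_or] at h
          simp only [f0, dif_neg h.1, dif_neg h.2] at hx
          exact hx
      · rintro (⟨h, -⟩ | ⟨y, hy, hyA, rfl⟩)
        · exact h
        · simp only [mem_compl_iff, mem_union, mem_singleton_iff, not_or] at hy
          simp only [f0, dif_neg hy.1, dif_neg hy.2]
          exact hyA
    rw [hsplit]
    refine MeasurableSet.union ?_ ?_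
    · exact ((hN.union (countable_singleton p)).mono inter_subset_right).measurableSet
    · refine hQm.compl.subtype_image ?_
      exact g.measurable (continuous_inr.measurable hA)
  -- the swaps
  let I : Type := {q : N × N // E q.1 q.2}
  let s : I → Equiv.Perm (OnePoint N ⊕ (ℕ → Bool)) := fun q =>
    Equiv.swap (Sum.inl (OnePoint.some q.1.1)) (Sum.inl (OnePoint.some q.1.2))
  have hiso : ∀ n : N, IsOpen ({Sum.inl (OnePoint.some n)} : Set (OnePoint N ⊕ (ℕ → Bool))) := by
    intro n
    have h1 : IsOpen ({OnePoint.some n} : Set (OnePoint N)) := by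
      have := (OnePoint.isOpen_image_coe (X := N) (s := {n})).2 (isOpen_discrete _)
      simpa using this
    have := (Topology.IsOpenEmbedding.inl (Y := (ℕ → Bool))).isOpenMap _ h1
    simpa using this
  have hs1 : ∀ i, Continuous (s i) := fun i => swap_continuous (hiso _) (hiso _)
  have hs2 : ∀ i, Continuous (s i).symm := fun i => by
    simp only [s, Equiv.symm_swap]
    exact swap_continuous (hiso _) (hiso _)
  have hF : Equivalence fun a b => E (f1 a) (f1 b) :=
    ⟨fun a => hE.refl _, fun h => hE.symm h, fun h h' => hE.trans h h'⟩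
  refine realizedOn_of_gen (E := E) s hs1 hs2 hF ?_ ?_ f hfm hf1m ?_
  · rintro ⟨⟨a, b⟩, hab⟩ x
    simp only [s]
    by_cases hxa : x = Sum.inl (OnePoint.some a)
    · subst hxa
      rw [Equiv.swap_apply_left]
      exact hab
    by_cases hxb : x = Sum.inl (OnePoint.some b)
    · subst hxb
      rw [Equiv.swap_apply_right]
      exact hE.symm hab
    · rw [Equiv.swap_apply_of_ne_of_ne hxa hxb]
      exact hE.refl _
  · intro x y hxy
    by_cases hne : x = y
    · exact ⟨1, by simp [hne]⟩
    · have hne' : f1 x ≠ f1 y := fun h => hne (by rw [← hr x, ← hr y, h])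
      have hx : f1 x ∈ N := ⟨f1 y, hxy, fun h => hne' h.symm⟩
      have hy : f1 y ∈ N := ⟨f1 x, hE.symm hxy, hne'⟩
      refine ⟨FreeGroup.of ⟨(⟨f1 x, hx⟩, ⟨f1 y, hy⟩), hxy⟩, ?_⟩
      have hx' : x = Sum.inl (OnePoint.some ⟨f1 x, hx⟩) := by
        conv_lhs => rw [← hr x]
        simp only [f0, dif_pos hx]
      have hy' : y = Sum.inl (OnePoint.some ⟨f1 y, hy⟩) := by
        conv_lhs => rw [← hr y]
        simp only [f0, dif_pos hy]
      simp only [FreeGroup.lift_apply_of, s]
      rw [← hx', ← hy', Equiv.swap_apply_left]
  · intro x y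
    show E x y ↔ E (f1 (f0 x)) (f1 (f0 y))
    rw [hl x, hl y]

end Pool.Agent.X219.CR
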